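import Mathlib

/-!
# Every `[n]` has a 3-good partition

We prove that for every positive integer `n` the set `[n] = {1, ..., n}` can be partitioned into
parts of size at most `3`, each of whose sums is a power of `3`.
-/

namespace Pool.Agent.Results.MP_b44c8b_co.ThreeGood

/-- A finite set of natural numbers is *3-good* if it has at least one and at most three elements
and the sum of its elements is a power of `3` (the value `3 ^ 0 = 1` is allowed). -/
def IsThreeGood (s : Finset ℕ) : Prop :=
  1 ≤ s.card ∧ s.card ≤ 3 ∧ ∃ j : ℕ, ∑ x ∈ s, x = 3 ^ j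

/-- A set of natural numbers that is a finite disjoint union of 3-good sets. -/
inductive Good : Set ℕ → Prop
  | empty : Good ∅
  | add (S : Set ℕ) (T : Finset ℕ) : Good S → IsThreeGood T → Disjoint S (T : Set ℕ) →
      Good (S ∪ T)

theorem Good.union {S : Set ℕ} (hS : Good S) {T : Set ℕ} (hT : Good T) (hd : Disjoint S T) :
    Good (S ∪ T) := by
  induction hT with
  | empty => simpa using hS
  | add T' t hT' ht hdt ih =>
    have h1 : Disjoint S T' := Disjoint.mono_right Set.subset_union_left hd
    have h2 : Disjoint S (t : Set ℕ) := Disjoint.mono_right Set.subset_union_right hd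
    rw [← Set.union_assoc]
    exact Good.add _ _ (ih h1) ht (Set.disjoint_union_left.mpr ⟨h2, hdt⟩)

theorem Good.of_isThreeGood {t : Finset ℕ} (ht : IsThreeGood t) : Good (t : Set ℕ) := by
  have := Good.add ∅ t Good.empty ht (Set.empty_disjoint _)
  simpa using this

/-- A set of integers that is a finite disjoint union of zero-sum triples. -/
inductive ZS : Set ℤ → Prop
  | empty : ZS ∅
  | add (S : Set ℤ) (a b c : ℤ) : ZS S → a + b + c = 0 → a ≠ b → a ≠ c → b ≠ c →
      a ∉ S → b ∉ S → c ∉ S → ZS (S ∪ {a, b, c})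

theorem ZS.union {S : Set ℤ} (hS : ZS S) {T : Set ℤ} (hT : ZS T) (hd : ∀ x ∈ S, x ∉ T) :
    ZS (S ∪ T) := by
  induction hT with
  | empty => simpa using hS
  | add T' a b c hT' h0 hab hac hbc ha hb hc ih =>
    have h1 : ∀ x ∈ S, x ∉ T' := fun x hx hx' => hd x hx (Or.inl hx')
    have h2 : ∀ x ∈ S, x ∉ ({a, b, c} : Set ℤ) := fun x hx hx' => hd x hx (Or.inr hx')
    rw [← Set.union_assoc]
    refine ZS.add _ a b c (ih h1) h0 hab hac hbc ?_ ?_ ?_
    · rintro (h | h)
      · exact h2 a h (by simp)
      · exact ha h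
    · rintro (h | h)
      · exact h2 b h (by simp)
      · exact hb h
    · rintro (h | h)
      · exact h2 c h (by simp)
      · exact hc h

theorem ZS.triple (a b c : ℤ) (h0 : a + b + c = 0) (hab : a ≠ b) (hac : a ≠ c) (hbc : b ≠ c) :
    ZS {x | x = a ∨ x = b ∨ x = c} := by
  have := ZS.add ∅ a b c ZS.empty h0 hab hac hbc (by simp) (by simp) (by simp)
  convert this using 1
  ext x; simp

theorem ZS.family (k : ℕ) (a b c : ℕ → ℤ)
    (h0 : ∀ i < k, a i + b i + c i = 0)
    (h1 : ∀ i < k, a i ≠ b i ∧ a i ≠ c i ∧ b i ≠ c i)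
    (h2 : ∀ i < k, ∀ j < i, (a i ≠ a j ∧ a i ≠ b j ∧ a i ≠ c j) ∧
      (b i ≠ a j ∧ b i ≠ b j ∧ b i ≠ c j) ∧ (c i ≠ a j ∧ c i ≠ b j ∧ c i ≠ c j)) :
    ZS {x | ∃ i < k, x = a i ∨ x = b i ∨ x = c i} := by
  induction k with
  | zero =>
    convert ZS.empty using 1
    ext x; simp
  | succ k ih =>
    have ih' := ih (fun i hi => h0 i (by omega)) (fun i hi => h1 i (by omega))
      (fun i hi => h2 i (by omega))
    have ht := ZS.triple (a k) (b k) (c k) (h0 k (by omega)) (h1 k (by omega)).1
      (h1 k (by omega)).2.1 (h1 k (by omega)).2.2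
    have hu := ZS.union ih' ht (by
      rintro x ⟨j, hj, hx⟩ hx'
      have h := h2 k (by omega) j hj
      simp only [Set.mem_ofPred_eq] at hx'
      rcases hx with rfl | rfl | rfl <;> rcases hx' with hx' | hx' | hx'
      · exact h.1.1 hx'.symm
      · exact h.2.1.1 hx'.symm
      · exact h.2.2.1 hx'.symm
      · exact h.1.2.1 hx'.symm
      · exact h.2.1.2.1 hx'.symm
      · exact h.2.2.2.1 hx'.symm
      · exact h.1.2.2 hx'.symm
      · exact h.2.1.2.2 hx'.symm
      · exact h.2.2.2.2 hx'.symm)
    convert hu using 1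
    ext x
    simp only [Set.mem_ofPred_eq, Set.mem_union]
    constructor
    · rintro ⟨i, hi, hx⟩
      rcases Nat.lt_succ_iff_lt_or_eq.mp hi with hi | rfl
      · exact Or.inl ⟨i, hi, hx⟩
      · exact Or.inr hx
    · rintro (⟨i, hi, hx⟩ | hx)
      · exact ⟨i, by omega, hx⟩
      · exact ⟨k, by omega, hx⟩

/-- Three disjoint intervals of the same odd length whose centres sum to zero. -/
theorem ZS.oblock (p q r : ℤ) (k : ℕ) (h : p + q + r + 3 * k = 0)
    (hpq : p + 2 * k < q ∨ q + 2 * k < p) (hpr : p + 2 * k < r ∨ r + 2 * k < p)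
    (hqr : q + 2 * k < r ∨ r + 2 * k < q) :
    ZS {x | (p ≤ x ∧ x ≤ p + 2 * k) ∨ (q ≤ x ∧ x ≤ q + 2 * k) ∨ (r ≤ x ∧ x ≤ r + 2 * k)} := by
  have f1 := ZS.family (k + 1) (fun i => p + 2 * i) (fun i => q + k - i) (fun i => r + 2 * k - i)
    (by intro i hi; omega) (by intro i hi; omega)
    (by intro i hi j hj; omega)
  have f2 := ZS.family k (fun i => p + 2 * i + 1) (fun i => q + 2 * k - i)
    (fun i => r + k - i - 1)
    (by intro i hi; omega) (by intro i hi; omega)
    (by intro i hi j hj; omega)
  have hu := ZS.union f1 f2 (by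
    rintro x ⟨i, hi, hx⟩ ⟨j, hj, hx'⟩
    omega)
  convert hu using 1
  ext x
  simp only [Set.mem_ofPred_eq, Set.mem_union]
  constructor
  · rintro (hx | hx | hx)
    · rcases Int.emod_two_eq_zero_or_one (x - p) with h2 | h2
      · exact Or.inl ⟨((x - p) / 2).toNat, by omega, by omega⟩
      · exact Or.inr ⟨((x - p) / 2).toNat, by omega, by omega⟩
    · by_cases h2 : x ≤ q + k
      · exact Or.inl ⟨(q + k - x).toNat, by omega, by omega⟩
      · exact Or.inr ⟨(q + 2 * k - x).toNat, by omega, by omega⟩
    · by_cases h2 : r + k ≤ x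
      · exact Or.inl ⟨(r + 2 * k - x).toNat, by omega, by omega⟩
      · exact Or.inr ⟨(r + k - 1 - x).toNat, by omega, by omega⟩
  · rintro (⟨i, hi, hx⟩ | ⟨i, hi, hx⟩)
    · omega
    · omega

/-- The punctured interval `[-3k, 3k] \ {0}`. -/
theorem ZS.three (k : ℕ) : ZS {x | x ≠ 0 ∧ -(3 * k : ℤ) ≤ x ∧ x ≤ 3 * k} := by
  have f1 := ZS.family k (fun i => -(k + 1 + 2 * i)) (fun i => -(k - i)) (fun i => 2 * k + 1 + i)
    (by intro i hi; omega) (by intro i hi; omega)
    (by intro i hi j hj; omega)
  have f2 := ZS.family k (fun i => -(k + 2 + 2 * i)) (fun i => i + 1) (fun i => k + 1 + i)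
    (by intro i hi; omega) (by intro i hi; omega)
    (by intro i hi j hj; omega)
  have hu := ZS.union f1 f2 (by
    rintro x ⟨i, hi, hx⟩ ⟨j, hj, hx'⟩
    omega)
  convert hu using 1
  ext x
  simp only [Set.mem_ofPred_eq, Set.mem_union]
  constructor
  · rintro ⟨hx0, hx1, hx2⟩
    by_cases c1 : 2 * (k : ℤ) + 1 ≤ x
    · exact Or.inl ⟨(x - 2 * k - 1).toNat, by omega, by omega⟩
    by_cases c2 : (k : ℤ) + 1 ≤ x
    · exact Or.inr ⟨(x - k - 1).toNat, by omega, by omega⟩
    by_cases c3 : 1 ≤ x
    · exact Or.inr ⟨(x - 1).toNat, by omega, by omega⟩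
    by_cases c4 : -(k : ℤ) ≤ x
    · exact Or.inl ⟨(k + x).toNat, by omega, by omega⟩
    rcases Int.emod_two_eq_zero_or_one (-x - k - 1) with h2 | h2
    · exact Or.inl ⟨((-x - k - 1) / 2).toNat, by omega, by omega⟩
    · exact Or.inr ⟨((-x - k - 1) / 2).toNat, by omega, by omega⟩
  · rintro (⟨i, hi, hx⟩ | ⟨i, hi, hx⟩)
    · omega
    · omega

/-- The interval `[-(3k+1), 3k+1]`. -/
theorem ZS.two (k : ℕ) : ZS {x | -(3 * k + 1 : ℤ) ≤ x ∧ x ≤ 3 * k + 1} := by
  have := ZS.oblock (-(3 * k + 1)) (-k) (k + 1) k (by ring) (by omega) (by omega) (by omega)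
  convert this using 1
  ext x
  simp only [Set.mem_ofPred_eq]
  omega

/-- The set of shifts used for the merged elements. -/
def Del (h : ℕ) : Set ℤ :=
  {d | (h % 2 = 1 ∧ -((h : ℤ) - 1) ≤ 2 * d ∧ 2 * d ≤ (h : ℤ) - 1) ∨
    (h % 2 = 0 ∧ (d = -((h : ℤ) - 1) ∨ (4 - (h : ℤ) ≤ 2 * d ∧ 2 * d ≤ h)))}

theorem ZS.merge (w h X : ℕ) (hh : 1 ≤ h) (hX : X = 2 * w + 2 * h + 1) :
    ZS {x | ((w : ℤ) + 1 ≤ x ∧ x ≤ w + 2 * h) ∨ (-x - X ∈ Del h)} := by
  rcases Nat.mod_two_eq_zero_or_one h with hp | hp
  · obtain ⟨k, hk⟩ : ∃ k, h = 2 * k + 2 := ⟨(h - 2) / 2, by omega⟩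
    have f1 := ZS.oblock (w + 2) (w + h + 2) (-(2 * w + h + 4 + 3 * k)) k (by omega) (by omega)
      (by omega) (by omega)
    have f2 := ZS.triple (w + 1) (w + h + 1) (-(2 * w + h + 2)) (by omega) (by omega)
      (by omega) (by omega)
    have hu := ZS.union f1 f2 (by
      intro x hx hx'
      simp only [Set.mem_ofPred_eq] at hx hx'
      omega)
    convert hu using 1
    ext x
    simp only [Set.mem_ofPred_eq, Set.mem_union, Del]
    omega
  · obtain ⟨k, hk⟩ : ∃ k, h = 2 * k + 1 := ⟨(h - 1) / 2, by omega⟩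
    have f1 := ZS.oblock (w + 1) (w + h + 1) (-(2 * w + h + 2 + 3 * k)) k (by omega) (by omega)
      (by omega) (by omega)
    convert f1 using 1
    ext x
    simp only [Set.mem_ofPred_eq, Del]
    omega

theorem ZS.del (h : ℕ) (hh : h % 3 = 1) : ZS {x | x ≠ 0 ∧ x ∈ Del h} := by
  rcases Nat.mod_two_eq_zero_or_one h with hp | hp
  · obtain ⟨k, hk⟩ : ∃ k, h = 6 * k + 4 := ⟨(h - 4) / 6, by omega⟩
    have f1 := ZS.three k
    have f2 := ZS.triple (-(h - 1)) (3 * k + 2) (3 * k + 1) (by omega) (by omega) (by omega)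
      (by omega)
    have hu := ZS.union f1 f2 (by
      intro x hx hx'
      simp only [Set.mem_ofPred_eq] at hx hx'
      omega)
    convert hu using 1
    ext x
    simp only [Set.mem_ofPred_eq, Set.mem_union, Del]
    omega
  · obtain ⟨k, hk⟩ : ∃ k, h = 6 * k + 1 := ⟨(h - 1) / 6, by omega⟩
    have f1 := ZS.three k
    convert f1 using 1
    ext x
    simp only [Set.mem_ofPred_eq, Del]
    omega

/-- Shifting a union of zero-sum triples by a power of three `M`. -/
theorem good_of_zs (j : ℕ) {S : Set ℤ} (hS : ZS S) (hb : ∀ x ∈ S, -(3 ^ j : ℤ) < x) :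
    Good {x : ℕ | (x : ℤ) - 3 ^ j ∈ S} := by
  induction hS with
  | empty =>
    convert Good.empty using 1
    ext x; simp
  | add S' a b c hS' h0 hab hac hbc ha hb' hc ih =>
    have h1 := ih (fun x hx => hb x (Or.inl hx))
    have hA := hb a (Or.inr (by simp))
    have hB := hb b (Or.inr (by simp))
    have hC := hb c (Or.inr (by simp))
    obtain ⟨a', ha'⟩ : ∃ a' : ℕ, (a' : ℤ) = a + 3 ^ j := ⟨(a + 3 ^ j).toNat, by omega⟩
    obtain ⟨b', hb''⟩ : ∃ b' : ℕ, (b' : ℤ) = b + 3 ^ j := ⟨(b + 3 ^ j).toNat, by omega⟩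
    obtain ⟨c', hc'⟩ : ∃ c' : ℕ, (c' : ℤ) = c + 3 ^ j := ⟨(c + 3 ^ j).toNat, by omega⟩
    have hab' : a' ≠ b' := by intro h; apply hab; subst h; omega
    have hac' : a' ≠ c' := by intro h; apply hac; subst h; omega
    have hbc' : b' ≠ c' := by intro h; apply hbc; subst h; omega
    have hT : IsThreeGood ({a', b', c'} : Finset ℕ) := by
      refine ⟨?_, ?_, j + 1, ?_⟩
      · rw [Finset.card_eq_three.mpr ⟨a', b', c', hab', hac', hbc', rfl⟩]; norm_num
      · rw [Finset.card_eq_three.mpr ⟨a', b', c', hab', hac', hbc', rfl⟩]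
      · rw [Finset.sum_insert (by simp [hab', hac']), Finset.sum_insert (by simp [hbc']),
          Finset.sum_singleton]
        have : ((a' + (b' + c') : ℕ) : ℤ) = ((3 ^ (j + 1) : ℕ) : ℤ) := by
          push_cast
          rw [pow_succ]
          linarith
        exact_mod_cast this
    have h2 := Good.add _ _ h1 hT (by
      rw [Set.disjoint_left]
      intro x hx hx'
      simp only [Set.mem_ofPred_eq] at hx
      simp only [Finset.coe_insert, Finset.coe_singleton, Set.mem_insert_iff,
        Set.mem_singleton_iff] at hx'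
      rcases hx' with rfl | rfl | rfl
      · apply ha; convert hx using 1; omega
      · apply hb'; convert hx using 1; omega
      · apply hc; convert hx using 1; omega)
    convert h2 using 1
    ext x
    simp only [Set.mem_ofPred_eq, Set.mem_union, Finset.coe_insert, Finset.coe_singleton,
        Set.mem_insert_iff, Set.mem_singleton_iff]
    have e1 : (x : ℤ) - 3 ^ j = a ↔ x = a' := by omega
    have e2 : (x : ℤ) - 3 ^ j = b ↔ x = b' := by omega
    have e3 : (x : ℤ) - 3 ^ j = c ↔ x = c' := by omega
    rw [e1, e2, e3]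

theorem good_singleton (j : ℕ) : Good {x : ℕ | x = 3 ^ j} := by
  have : IsThreeGood ({3 ^ j} : Finset ℕ) := ⟨by simp, by simp, j, by simp⟩
  have := Good.of_isThreeGood this
  convert this using 1
  ext x; simp

/-- Pairs `{x, M - x}` for a power of three `M`. -/
theorem good_pairs_aux (j : ℕ) (P : ℕ → Prop) (N : ℕ) :
    Good {x : ℕ | (x < N ∨ 3 ^ j < x + N) ∧ 0 < x ∧ x < 3 ^ j ∧ P x ∧ P (3 ^ j - x)} := by
  induction N with
  | zero =>
    convert Good.empty using 1
    ext x
    simp only [Set.mem_ofPred_eq, Set.mem_empty_iff_false, iff_false]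
    rintro ⟨h1, h2, h3, -⟩
    omega
  | succ N ih =>
    have hodd : 3 ^ j % 2 = 1 := by
      rw [Nat.pow_mod]; norm_num
    by_cases hN : 0 < N ∧ 2 * N < 3 ^ j ∧ P N ∧ P (3 ^ j - N)
    · obtain ⟨hN0, hN2, hN3, hN4⟩ := hN
      have hne : N ≠ 3 ^ j - N := by omega
      have hT : IsThreeGood ({N, 3 ^ j - N} : Finset ℕ) := by
        refine ⟨?_, ?_, j, ?_⟩
        · rw [Finset.card_pair hne]; norm_num
        · rw [Finset.card_pair hne]; norm_num
        · rw [Finset.sum_pair hne]; omega
      have h2 := Good.add _ _ ih hT (by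
        rw [Set.disjoint_left]
        intro x hx hx'
        simp only [Set.mem_ofPred_eq] at hx
        simp only [Finset.coe_insert, Finset.coe_singleton, Set.mem_insert_iff,
          Set.mem_singleton_iff] at hx'
        omega)
      convert h2 using 1
      ext x
      simp only [Set.mem_ofPred_eq, Set.mem_union, Finset.coe_insert, Finset.coe_singleton,
          Set.mem_insert_iff, Set.mem_singleton_iff]
      constructor
      · rintro ⟨h1, h2, h3, h4, h5⟩
        by_cases c1 : x = N
        · right; left; exact c1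
        by_cases c2 : x = 3 ^ j - N
        · right; right; exact c2
        left
        exact ⟨by omega, h2, h3, h4, h5⟩
      · rintro (⟨h1, h2, h3, h4, h5⟩ | rfl | rfl)
        · exact ⟨by omega, h2, h3, h4, h5⟩
        · exact ⟨by omega, by omega, by omega, hN3, hN4⟩
        · refine ⟨by omega, by omega, by omega, hN4, ?_⟩
          have : 3 ^ j - (3 ^ j - N) = N := by omega
          rw [this]; exact hN3
    · convert ih using 1
      ext x
      simp only [Set.mem_ofPred_eq]
      constructor
      · rintro ⟨h1, h2, h3, h4, h5⟩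
        refine ⟨?_, h2, h3, h4, h5⟩
        by_contra hc
        apply hN
        have hx : x = N ∨ x = 3 ^ j - N := by omega
        rcases hx with rfl | rfl
        · by_cases c : 2 * x < 3 ^ j
          · exact ⟨h2, c, h4, h5⟩
          · exfalso; omega
        · have : 3 ^ j - (3 ^ j - N) = N := by omega
          rw [this] at h5
          by_cases c : 2 * N < 3 ^ j
          · exact ⟨by omega, c, h5, h4⟩
          · exfalso; omega
      · rintro ⟨h1, h2, h3, h4, h5⟩
        exact ⟨by omega, h2, h3, h4, h5⟩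

theorem good_pairs (j : ℕ) (P : ℕ → Prop) :
    Good {x : ℕ | 0 < x ∧ x < 3 ^ j ∧ P x ∧ P (3 ^ j - x)} := by
  convert good_pairs_aux j P (3 ^ j) using 1
  ext x
  simp only [Set.mem_ofPred_eq]
  constructor
  · rintro ⟨h2, h3, h4, h5⟩
    exact ⟨by omega, h2, h3, h4, h5⟩
  · rintro ⟨_, h2, h3, h4, h5⟩
    exact ⟨h2, h3, h4, h5⟩

/-- The recursive parameters `(D, w, X, h)` of the construction. -/
inductive Shape : ℕ → ℕ → ℕ → ℕ → Prop
  | base (s D w h : ℕ) : 3 ^ s < 2 * D → D < 3 ^ s → D % 3 = 2 → w + D + 1 = 3 ^ s →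
      D = w + 2 * h → Shape D w (3 ^ s) h
  | step (s D w X h : ℕ) : 2 * D < 3 ^ s → Shape D w X h →
      Shape (3 ^ s + D) (3 ^ s + w) (2 * 3 ^ s + X) h

theorem three_pow_mod (s : ℕ) (hs : 3 ≤ 3 ^ s) : 3 ^ s % 3 = 0 := by
  rcases s with _ | s
  · omega
  · rw [pow_succ]; omega

theorem three_pow_lt {a b : ℕ} (h : 3 ^ a < 3 ^ b) : 3 * 3 ^ a ≤ 3 ^ b := by
  have hab : a < b := (Nat.pow_lt_pow_iff_right (by norm_num)).mp h
  have : 3 ^ (a + 1) ≤ 3 ^ b := Nat.pow_le_pow_right (by norm_num) hab
  rw [pow_succ] at this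
  omega

theorem Shape.basic {D w X h : ℕ} (hS : Shape D w X h) :
    D % 3 = 2 ∧ w % 3 = 0 ∧ D = w + 2 * h ∧ X = D + w + 1 := by
  induction hS with
  | base s D w h h1 h2 h3 h4 h5 =>
    have := three_pow_mod s (by omega)
    omega
  | step s D w X h h1 h2 ih =>
    have := three_pow_mod s (by omega)
    omega

theorem Shape.bound {D w X h : ℕ} (hS : Shape D w X h) (j : ℕ) (hj : 2 * D < 3 ^ j) :
    2 * X + h < 2 * 3 ^ j := by
  induction hS generalizing j with
  | base s D w h h1 h2 h3 h4 h5 =>
    have h6 : 3 ^ s < 3 ^ j := by omega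
    have := three_pow_lt h6
    omega
  | step s D w X h h1 h2 ih =>
    have h6 : 3 ^ s < 3 ^ j := by omega
    have := three_pow_lt h6
    have := ih s h1
    omega

theorem Shape.exists (D : ℕ) (hD : D % 3 = 2) : ∃ w X h, Shape D w X h := by
  induction D using Nat.strong_induction_on with
  | _ D ih =>
    obtain ⟨s, hs1, hs2⟩ : ∃ s, 3 ^ s ≤ D ∧ D < 3 ^ (s + 1) :=
      ⟨Nat.log 3 D, Nat.pow_log_le_self 3 (by omega), Nat.lt_pow_succ_log_self (by norm_num) D⟩
    rw [pow_succ] at hs2
    have hodd : 3 ^ s % 2 = 1 := by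
      rw [Nat.pow_mod]; norm_num
    by_cases hc : 3 ^ s * 3 < 2 * D
    · refine ⟨3 ^ (s + 1) - 1 - D, 3 ^ (s + 1), D - (3 ^ (s + 1) - 1) / 2, ?_⟩
      have e : 3 ^ (s + 1) = 3 ^ s * 3 := pow_succ 3 s
      apply Shape.base (s + 1) <;> omega
    · have h3 : 3 ≤ 3 ^ s := by
        by_contra hcon
        have : 3 ^ s < 3 ^ 1 := by omega
        have := (Nat.pow_lt_pow_iff_right (by norm_num)).mp this
        have hs0 : s = 0 := by omega
        subst hs0
        norm_num at hs1 hs2 hc
        omega
      have h4 := three_pow_mod s h3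
      obtain ⟨w, X, h, hS⟩ := ih (D - 3 ^ s) (by omega) (by omega)
      refine ⟨3 ^ s + w, 2 * 3 ^ s + X, h, ?_⟩
      have := Shape.step s (D - 3 ^ s) w X h (by omega) hS
      have e : 3 ^ s + (D - 3 ^ s) = D := by omega
      rwa [e] at this

/-- The set `E`: the interval `[1, w]` together with the merged elements `X + Del h`. -/
def E (w X h : ℕ) : Set ℕ := {x | (1 ≤ x ∧ x ≤ w) ∨ ((x : ℤ) - X ∈ Del h)}

/-- The elements of `E` which are not complementary (with respect to `M`) to elements of `E`. -/
def Red (M w X h : ℕ) : Set ℕ := {x | 0 < x ∧ x < M ∧ x ∈ E w X h ∧ M - x ∉ E w X h}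

theorem Del.bounds {h : ℕ} {d : ℤ} (hh : 1 ≤ h) (hd : d ∈ Del h) :
    -((h : ℤ) - 1) ≤ d ∧ 2 * d ≤ h := by
  simp only [Del, Set.mem_ofPred_eq] at hd
  omega

theorem Del.zero_mem {h : ℕ} (hh : 1 ≤ h) (hh2 : h ≠ 2) : (0 : ℤ) ∈ Del h := by
  simp only [Del, Set.mem_ofPred_eq]
  omega

/-- The set appearing in the recursion step. -/
theorem good_step (s w X h : ℕ) (hh : h % 3 = 1) (hw3 : w % 3 = 0)
    (hw : 2 * w < 3 ^ s) (hX : w + h ≤ X) (_hXb : 2 * X + h < 2 * 3 ^ s)
    (hR : Good (Red (3 ^ s) w X h)) :
    Good {x : ℕ | 1 ≤ x ∧ x ≤ 3 ^ s + w ∧ (3 ^ s : ℤ) - x - X ∉ Del h} := by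
  have e3 : ((3 ^ s : ℕ) : ℤ) = 3 ^ s := by push_cast; rfl
  have g1 := good_singleton s
  have g2 := good_of_zs s (ZS.three (w / 3)) (by
    intro x hx
    simp only [Set.mem_ofPred_eq] at hx
    omega)
  have g3 := good_pairs s (fun x => x ∉ E w X h)
  have hDel : ∀ d ∈ Del h, -((h : ℤ) - 1) ≤ d ∧ 2 * d ≤ h :=
    fun d hd => Del.bounds (by omega) hd
  have g34 := g3.union hR (by
    rw [Set.disjoint_left]
    intro x hx hx'
    simp only [Set.mem_ofPred_eq, Red] at hx hx'
    exact hx.2.2.1 hx'.2.2.1)
  have g12 := g1.union g2 (by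
    rw [Set.disjoint_left]
    intro x hx hx'
    simp only [Set.mem_ofPred_eq] at hx hx'
    omega)
  have key : {x : ℕ | 0 < x ∧ x < 3 ^ s ∧ x ∉ E w X h ∧ 3 ^ s - x ∉ E w X h} ∪
      Red (3 ^ s) w X h = {x : ℕ | 0 < x ∧ x < 3 ^ s ∧ 3 ^ s - x ∉ E w X h} := by
    ext x
    simp only [Red, Set.mem_union, Set.mem_ofPred_eq]
    by_cases hx : x ∈ E w X h <;> simp [hx]
  rw [key] at g34
  have key2 : {x : ℕ | 0 < x ∧ x < 3 ^ s ∧ 3 ^ s - x ∉ E w X h} =
      {x : ℕ | 1 ≤ x ∧ x + w < 3 ^ s ∧ (3 ^ s : ℤ) - x - X ∉ Del h} := by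
    ext x
    simp only [E, Set.mem_ofPred_eq, not_or]
    constructor
    · rintro ⟨a1, a2, a3, a4⟩
      refine ⟨by omega, by omega, ?_⟩
      rwa [Nat.cast_sub (by omega), e3] at a4
    · rintro ⟨a1, a2, a3⟩
      refine ⟨by omega, by omega, by omega, ?_⟩
      rwa [Nat.cast_sub (by omega), e3]
  rw [key2] at g34
  have g := g12.union g34 (by
    rw [Set.disjoint_left]
    intro x hx hx'
    simp only [Set.mem_ofPred_eq, Set.mem_union] at hx hx'
    omega)
  convert g using 1
  ext x
  simp only [Set.mem_ofPred_eq, Set.mem_union]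
  constructor
  · rintro ⟨a1, a2, a3⟩
    by_cases c1 : x = 3 ^ s
    · exact Or.inl (Or.inl c1)
    by_cases c2 : x + w < 3 ^ s
    · exact Or.inr ⟨a1, c2, a3⟩
    · left; right
      omega
  · rintro ((a1 | a1) | ⟨a1, a2, a3⟩)
    · subst a1
      refine ⟨by omega, by omega, ?_⟩
      intro hd
      have := hDel _ hd
      omega
    · refine ⟨by omega, by omega, ?_⟩
      intro hd
      have := hDel _ hd
      omega
    · exact ⟨a1, by omega, a3⟩

theorem good_red {D w X h : ℕ} (hS : Shape D w X h) (j : ℕ) (hj : 2 * D < 3 ^ j)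
    (hg : ∀ m, m < D → Good {x : ℕ | 1 ≤ x ∧ x ≤ m}) : Good (Red (3 ^ j) w X h) := by
  induction hS generalizing j with
  | base s D w h h1 h2 h3 h4 h5 =>
    have hlt : 3 ^ s < 3 ^ j := by omega
    have hM := three_pow_lt hlt
    have h6 := three_pow_mod s (by omega)
    have e3 : ((3 ^ s : ℕ) : ℤ) = 3 ^ s := by push_cast; rfl
    have e3j : ((3 ^ j : ℕ) : ℤ) = 3 ^ j := by push_cast; rfl
    have hDel : ∀ d ∈ Del h, -((h : ℤ) - 1) ≤ d ∧ 2 * d ≤ h :=
      fun d hd => Del.bounds (by omega) hd
    have hDel0 : (0 : ℤ) ∈ Del h := Del.zero_mem (by omega) (by omega)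
    have g1 := hg w (by omega)
    have g2 := good_singleton s
    have g3 := good_of_zs s (ZS.del h (by omega)) (by
      rintro x ⟨hx0, hx⟩
      have := hDel x hx
      omega)
    have g12 := g1.union g2 (by
      rw [Set.disjoint_left]
      intro x hx hx'
      simp only [Set.mem_ofPred_eq] at hx hx'
      omega)
    have g := g12.union g3 (by
      rw [Set.disjoint_left]
      rintro x hx ⟨hx0, hx'⟩
      have := hDel _ hx'
      simp only [Set.mem_ofPred_eq, Set.mem_union] at hx
      omega)
    convert g using 1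
    ext x
    simp only [Red, E, Set.mem_ofPred_eq, Set.mem_union]
    constructor
    · rintro ⟨a1, a2, a3 | a3, a4⟩
      · left; left; exact a3
      · by_cases c : x = 3 ^ s
        · left; right; exact c
        · right
          refine ⟨by omega, ?_⟩
          rwa [e3] at a3
    · rintro ((a1 | a1) | ⟨a1, a2⟩)
      · refine ⟨by omega, by omega, Or.inl a1, ?_⟩
        rintro (b | b)
        · omega
        · have := hDel _ b
          omega
      · refine ⟨by omega, by omega, Or.inr ?_, ?_⟩
        · rw [a1, sub_self]; exact hDel0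
        · rintro (b | b)
          · omega
          · have := hDel _ b
            omega
      · have h7 := hDel _ a2
        refine ⟨by omega, by omega, Or.inr ?_, ?_⟩
        · rwa [e3]
        · rintro (b | b)
          · omega
          · have := hDel _ b
            omega
  | step s D w X h h1 h2 ih =>
    have hlt : 3 ^ s < 3 ^ j := by omega
    have hM := three_pow_lt hlt
    have hb := h2.basic
    have hbd := h2.bound s h1
    have e3 : ((3 ^ s : ℕ) : ℤ) = 3 ^ s := by push_cast; rfl
    have e3j : ((3 ^ j : ℕ) : ℤ) = 3 ^ j := by push_cast; rfl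
    have hh : h % 3 = 1 := by omega
    have hDel : ∀ d ∈ Del h, -((h : ℤ) - 1) ≤ d ∧ 2 * d ≤ h :=
      fun d hd => Del.bounds (by omega) hd
    have hR := ih s h1 (fun m hm => hg m (by omega))
    have gs := good_step s w X h hh hb.2.1 (by omega) (by omega) hbd hR
    by_cases hj3 : 3 ^ j = 3 * 3 ^ s
    · convert gs using 1
      ext x
      simp only [Red, E, Set.mem_ofPred_eq]
      constructor
      · rintro ⟨a1, a2, a3 | a3, a4⟩
        · refine ⟨by omega, by omega, ?_⟩
          intro hd
          apply a4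
          right
          have := hDel _ hd
          convert hd using 1
          push_cast
          omega
        · exfalso
          have := hDel _ a3
          apply a4
          left
          push_cast at this
          omega
      · rintro ⟨a1, a2, a3⟩
        refine ⟨by omega, by omega, Or.inl ⟨a1, a2⟩, ?_⟩
        rintro (b | b)
        · omega
        · apply a3
          convert b using 1
          push_cast
          omega
    · have hlt2 : 3 ^ (s + 1) < 3 ^ j := by rw [pow_succ]; omega
      have hM2 := three_pow_lt hlt2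
      rw [pow_succ] at hM2
      have gp := good_pairs (s + 1) (fun x => (x : ℤ) - 2 * 3 ^ s - X ∈ Del h ∨
        (3 : ℤ) ^ s - x - X ∈ Del h)
      have e31 : 3 ^ (s + 1) = 3 ^ s * 3 := pow_succ 3 s
      have g := gs.union gp (by
        rw [Set.disjoint_left]
        rintro x ⟨a1, a2, a3⟩ ⟨b1, b2, b3 | b3, b4⟩
        · have := hDel _ b3
          omega
        · exact a3 b3)
      convert g using 1
      ext x
      simp only [Red, E, Set.mem_ofPred_eq, Set.mem_union]
      constructor
      · rintro ⟨a1, a2, a3 | a3, a4⟩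
        · by_cases c : (3 : ℤ) ^ s - x - X ∈ Del h
          · right
            have := hDel _ c
            refine ⟨by omega, by omega, Or.inr c, Or.inl ?_⟩
            convert c using 1
            push_cast [Nat.cast_sub (show x ≤ 3 ^ (s + 1) by omega)]
            rw [pow_succ]
            ring
          · left
            exact ⟨a3.1, a3.2, c⟩
        · right
          push_cast at a3
          have h9 := hDel _ a3
          refine ⟨by omega, by omega, Or.inl ?_, Or.inr ?_⟩
          · convert a3 using 1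
            ring
          · convert a3 using 1
            push_cast [Nat.cast_sub (show x ≤ 3 ^ (s + 1) by omega)]
            rw [pow_succ]
            ring
      · rintro (⟨a1, a2, a3⟩ | ⟨a1, a2, a3 | a3, a4⟩)
        · refine ⟨by omega, by omega, Or.inl ⟨a1, a2⟩, ?_⟩
          rintro (b | b)
          · omega
          · push_cast at b
            have := hDel _ b
            omega
        · have h9 := hDel _ a3
          refine ⟨by omega, by omega, Or.inr ?_, ?_⟩
          · convert a3 using 1
            push_cast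
            ring
          · rintro (b | b)
            · omega
            · push_cast at b
              have := hDel _ b
              omega
        · have h9 := hDel _ a3
          refine ⟨by omega, by omega, Or.inl ⟨by omega, by omega⟩, ?_⟩
          rintro (b | b)
          · omega
          · push_cast at b
            have := hDel _ b
            omega

theorem good_initial (n : ℕ) : Good {x : ℕ | 1 ≤ x ∧ x ≤ n} := by
  induction n using Nat.strong_induction_on with
  | _ n ih =>
    rcases Nat.eq_zero_or_pos n with rfl | hn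
    · convert Good.empty using 1
      ext x
      simp only [Set.mem_ofPred_eq, Set.mem_empty_iff_false, iff_false]
      omega
    obtain ⟨j, hj1, hj2⟩ : ∃ j, 3 ^ j ≤ n ∧ n < 3 ^ (j + 1) :=
      ⟨Nat.log 3 n, Nat.pow_log_le_self 3 (by omega), Nat.lt_pow_succ_log_self (by norm_num) n⟩
    have e31 : 3 ^ (j + 1) = 3 ^ j * 3 := pow_succ 3 j
    have hodd : 3 ^ j % 2 = 1 := by
      rw [Nat.pow_mod]; norm_num
    have e3 : ((3 ^ j : ℕ) : ℤ) = 3 ^ j := by push_cast; rfl
    by_cases hc : 3 ^ (j + 1) < 2 * n
    · -- pairs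
      have g1 := good_pairs (j + 1) (fun x => x ≤ n)
      have g2 := ih (3 ^ (j + 1) - n - 1) (by omega)
      have g := g2.union g1 (by
        rw [Set.disjoint_left]
        intro x hx hx'
        simp only [Set.mem_ofPred_eq] at hx hx'
        omega)
      convert g using 1
      ext x
      simp only [Set.mem_ofPred_eq, Set.mem_union]
      omega
    obtain ⟨D, hD⟩ : ∃ D, n = 3 ^ j + D := ⟨n - 3 ^ j, by omega⟩
    have hD3 : D % 3 = 0 ∨ D % 3 = 1 ∨ D % 3 = 2 := by omega
    rcases hD3 with hD3 | hD3 | hD3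
    · have g1 := good_singleton j
      have g2 := good_of_zs j (ZS.three (D / 3)) (by
        intro x hx
        simp only [Set.mem_ofPred_eq] at hx
        omega)
      have g3 := ih (3 ^ j - D - 1) (by omega)
      have g12 := g1.union g2 (by
        rw [Set.disjoint_left]
        intro x hx hx'
        simp only [Set.mem_ofPred_eq] at hx hx'
        omega)
      have g := g12.union g3 (by
        rw [Set.disjoint_left]
        intro x hx hx'
        simp only [Set.mem_ofPred_eq, Set.mem_union] at hx hx'
        omega)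
      convert g using 1
      ext x
      simp only [Set.mem_ofPred_eq, Set.mem_union]
      omega
    · have g2 := good_of_zs j (ZS.two (D / 3)) (by
        intro x hx
        simp only [Set.mem_ofPred_eq] at hx
        omega)
      have g3 := ih (3 ^ j - D - 1) (by omega)
      have g := g2.union g3 (by
        rw [Set.disjoint_left]
        intro x hx hx'
        simp only [Set.mem_ofPred_eq] at hx hx'
        omega)
      convert g using 1
      ext x
      simp only [Set.mem_ofPred_eq, Set.mem_union]
      omega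
    · have hDj : 2 * D < 3 ^ j := by omega
      obtain ⟨w, X, h, hS⟩ := Shape.exists D hD3
      have hb := hS.basic
      have hbd := hS.bound j hDj
      have hDel : ∀ d ∈ Del h, -((h : ℤ) - 1) ≤ d ∧ 2 * d ≤ h :=
        fun d hd => Del.bounds (by omega) hd
      have gR := good_red hS j hDj (fun m hm => ih m (by omega))
      have g1 := good_singleton j
      have z1 := ZS.three (w / 3)
      have z2 := ZS.merge w h X (by omega) (by omega)
      have z := ZS.union z1 z2 (by
        rintro x hx (hx' | hx')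
        · simp only [Set.mem_ofPred_eq] at hx
          omega
        · simp only [Set.mem_ofPred_eq] at hx
          have := hDel _ hx'
          omega)
      have g2 := good_of_zs j z (by
        rintro x (hx | hx | hx)
        · simp only [Set.mem_ofPred_eq] at hx
          omega
        · omega
        · have := hDel _ hx
          omega)
      have g3 := good_pairs j (fun x => x ∉ E w X h)
      have g34 := g3.union gR (by
        rw [Set.disjoint_left]
        intro x hx hx'
        simp only [Set.mem_ofPred_eq, Red] at hx hx'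
        exact hx.2.2.1 hx'.2.2.1)
      have key : {x : ℕ | 0 < x ∧ x < 3 ^ j ∧ x ∉ E w X h ∧ 3 ^ j - x ∉ E w X h} ∪
          Red (3 ^ j) w X h = {x : ℕ | 0 < x ∧ x < 3 ^ j ∧ 3 ^ j - x ∉ E w X h} := by
        ext x
        simp only [Red, Set.mem_union, Set.mem_ofPred_eq]
        by_cases hx : x ∈ E w X h <;> simp [hx]
      rw [key] at g34
      have key2 : {x : ℕ | 0 < x ∧ x < 3 ^ j ∧ 3 ^ j - x ∉ E w X h} =
          {x : ℕ | 1 ≤ x ∧ x + w < 3 ^ j ∧ (3 ^ j : ℤ) - x - X ∉ Del h} := by
        ext x
        simp only [E, Set.mem_ofPred_eq, not_or]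
        constructor
        · rintro ⟨a1, a2, a3, a4⟩
          refine ⟨by omega, by omega, ?_⟩
          rwa [Nat.cast_sub (by omega), e3] at a4
        · rintro ⟨a1, a2, a3⟩
          refine ⟨by omega, by omega, by omega, ?_⟩
          rwa [Nat.cast_sub (by omega), e3]
      rw [key2] at g34
      have g12 := g1.union g2 (by
        rw [Set.disjoint_left]
        rintro x hx (hx' | hx' | hx')
        · simp only [Set.mem_ofPred_eq] at hx hx'
          omega
        · simp only [Set.mem_ofPred_eq] at hx
          omega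
        · simp only [Set.mem_ofPred_eq] at hx
          have := hDel _ hx'
          omega)
      have hneg : ∀ x : ℕ, -((x : ℤ) - 3 ^ j) - X = (3 ^ j : ℤ) - x - X := by intro x; ring
      have g := g12.union g34 (by
        rw [Set.disjoint_left]
        rintro x (hx | hx | hx | hx) ⟨b1, b2, b3⟩
        · simp only [Set.mem_ofPred_eq] at hx
          omega
        · simp only [Set.mem_ofPred_eq] at hx
          omega
        · omega
        · rw [hneg] at hx
          exact b3 hx)
      convert g using 1
      ext x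
      simp only [Set.mem_ofPred_eq, Set.mem_union]
      rw [hneg]
      constructor
      · rintro ⟨a1, a2⟩
        by_cases c1 : x = 3 ^ j
        · exact Or.inl (Or.inl c1)
        by_cases c2 : (3 ^ j : ℤ) - x - X ∈ Del h
        · left; right; right; right; exact c2
        by_cases c3 : x + w < 3 ^ j
        · right; exact ⟨a1, c3, c2⟩
        by_cases c4 : x ≤ 3 ^ j + w
        · left; right; left; omega
        · left; right; right; left; omega
      · rintro ((a1 | a1 | a1 | a1) | ⟨a1, a2, a3⟩)
        · omega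
        · omega
        · omega
        · have := hDel _ a1
          omega
        · omega

theorem Good.finpartition {S : Set ℕ} (hS : Good S) :
    ∀ T : Finset ℕ, (T : Set ℕ) = S → ∃ P : Finpartition T, ∀ s ∈ P.parts, IsThreeGood s := by
  induction hS with
  | empty =>
    intro T hT
    have : T = ∅ := by exact_mod_cast hT
    subst this
    exact ⟨Finpartition.empty _, by simp⟩
  | add S t hS ht hd ih =>
    intro T hT
    have hsub : t ⊆ T := by
      intro x hx
      have : x ∈ (T : Set ℕ) := by rw [hT]; exact Or.inr hx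
      exact_mod_cast this
    have hcoe : ((T \ t : Finset ℕ) : Set ℕ) = S := by
      rw [Finset.coe_sdiff, hT, Set.union_sdiff_right]
      exact sdiff_eq_left.mpr hd
    obtain ⟨P, hP⟩ := ih (T \ t) hcoe
    have htne : t ≠ ∅ := by
      rintro rfl
      have := ht.1
      simp at this
    refine ⟨P.extend (b := t) (c := T) htne ?_ ?_, ?_⟩
    · exact Finset.sdiff_disjoint
    · simp only [Finset.sup_eq_union]
      exact Finset.sdiff_union_of_subset hsub
    · intro s hs
      simp only [Finpartition.extend_parts, Finset.mem_insert] at hs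
      rcases hs with rfl | hs
      · exact ht
      · exact hP s hs

/-- **Main theorem.** For every positive integer `n`, the set `[n] = {1, ..., n}` has a partition
all of whose parts have at most three elements and a power of three as their sum. -/
theorem result : ∀ n : ℕ, 0 < n →
    ∃ P : Finpartition (Finset.Icc 1 n), ∀ s ∈ P.parts, IsThreeGood s := by
  intro n _
  apply (good_initial n).finpartition
  ext x
  simp

end Pool.Agent.Results.MP_b44c8b_co.ThreeGood
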